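import Mathlib
import Pool.Agent.R833.ML.Main2

/-!
MP_aff8e8_an, Q1: negative answer.  There are `α ∈ (1,2)` and `t > 0` with `ψ_α(t) = 0`, where
`ψ_α(t) = E_{α,1}(w)^2 - w E_{α,2}(w) E_{α,α}(w)`, `w = i^{-α} t`.
-/

set_option autoImplicit false

namespace Pool.Agent.Results.MP_aff8e8_an.ZeroOnHalfLine

/-- The two-parameter Mittag-Leffler function `E_{α,β}(z) = ∑ z^k / Γ(αk+β)`. -/
noncomputable def mittagLeffler (α β : ℝ) (z : ℂ) : ℂ :=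
  ∑' k : ℕ, z ^ k / ((Real.Gamma (α * k + β) : ℝ) : ℂ)

/-- The function `ψ_α` of the problem; `i^{-α} = exp (-iπα/2)`. -/
noncomputable def psi (α t : ℝ) : ℂ :=
  mittagLeffler α 1 (Complex.exp (-((Real.pi * α / 2 : ℝ) : ℂ) * Complex.I) * t) ^ 2
    - Complex.exp (-((Real.pi * α / 2 : ℝ) : ℂ) * Complex.I) * t *
      mittagLeffler α 2 (Complex.exp (-((Real.pi * α / 2 : ℝ) : ℂ) * Complex.I) * t) *
      mittagLeffler α α (Complex.exp (-((Real.pi * α / 2 : ℝ) : ℂ) * Complex.I) * t)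

theorem result :
    (∀ (α β : ℝ) (z : ℂ), 0 < α → 0 < β →
      Summable (fun k : ℕ => z ^ k / ((Real.Gamma (α * k + β) : ℝ) : ℂ))) ∧
    ∃ α : ℝ, 1 < α ∧ α < 2 ∧ ∃ t : ℝ, 0 < t ∧ psi α t = 0 := by
  refine ⟨R833.ML.SUM.t_SUM, ?_⟩
  obtain ⟨a, h1, h2, t, ht, h⟩ := R833.ML.all_FIN2
  exact ⟨a, h1, h2, t, ht, h⟩

end Pool.Agent.Results.MP_aff8e8_an.ZeroOnHalfLine
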